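import Pool.Agent.H41.STK.MUL
import Pool.Agent.H40.STK.MUI
import Pool.Agent.H41.STK.Q22
import Pool.Agent.H35.K2S.Stab

/-!
# Samples which do not span: a popular test (row SPAN of `K_GEN_FF`)

`C` is a context, `W` are the data of the line, `A` is a sample of small dependence on `W` given
`C`. A finite family of tests `B f` on samples is given. If, with probability at least `η`, all of
`K` conditional copies of the sample (given `W` and `C`) pass a common test, then there is a test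
`φ C`, a function of the context alone, which is passed by the sample with probability at least
`η / 2 * exp (-(2 / η) * (κ + log (N + 1) / K))`.

`gibbs_set`: the dependence of `A` on a choice of a test which `A` passes.
`pick_copy`: one of the copies depends little on the choice of the test.
`span_test`: the statement for finite families of tests.
`span_cov`: the statement for unit covectors and vectors which are functions of the samples.
-/

set_option autoImplicit false

namespace Pool.SPN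

open Finset Real
open Pool.Agent.H49.Ent Pool.Agent.H32.Dense Pool.STK Pool.K2S

variable {Ω Ω' S T U Γ Φ : Type} [Fintype Ω] [Fintype Ω']

/-! ### The probability of a test given the context -/

/-- The probability of the test `B f` given `C = γ`. -/
noncomputable def ms (p : Ω → ℝ) (A : Ω → S) (C : Ω → Γ) (B : Φ → S → Prop) (f : Φ) (γ : Γ) : ℝ :=
  law p (fun ω => (B f (A ω), C ω)) (True, γ) / law p C γ

theorem law_and_le {p : Ω → ℝ} (hp : ∀ ω, 0 ≤ p ω) (A : Ω → S) (C : Ω → Γ) (B : S → Prop) (γ : Γ) :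
    law p (fun ω => (B (A ω), C ω)) (True, γ) ≤ law p C γ := by
  classical
  unfold law
  refine Finset.sum_le_sum fun ω _ => ?_
  by_cases h : C ω = γ
  · rw [if_pos h]
    split_ifs
    exacts [le_rfl, hp ω]
  · rw [if_neg h, if_neg fun e => h (Prod.ext_iff.mp e).2]

theorem ms_nonneg {p : Ω → ℝ} (hp : ∀ ω, 0 ≤ p ω) (A : Ω → S) (C : Ω → Γ) (B : Φ → S → Prop) (f : Φ)
    (γ : Γ) : 0 ≤ ms p A C B f γ :=
  div_nonneg (law_nonneg hp _ _) (law_nonneg hp _ _)

theorem ms_le_one {p : Ω → ℝ} (hp : ∀ ω, 0 ≤ p ω) (A : Ω → S) (C : Ω → Γ) (B : Φ → S → Prop) (f : Φ)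
    (γ : Γ) : ms p A C B f γ ≤ 1 :=
  div_le_one_of_le₀ (law_and_le hp A C (B f) γ) (law_nonneg hp _ _)

theorem law_tests {p : Ω → ℝ} (hp : ∀ ω, 0 ≤ p ω) (A : Ω → S) (C : Ω → Γ) (B : S → Prop) (γ : Γ)
    (F : Finset S) :
    (open Classical in ∑ x ∈ F, if B x then law p (fun ω => (A ω, C ω)) (x, γ) else 0) ≤
      law p (fun ω => (B (A ω), C ω)) (True, γ) := by
  classical
  have e0 : law p (fun ω => (B (A ω), C ω)) (True, γ) =
      ∑ ω, if B (A ω) ∧ C ω = γ then p ω else 0 := by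
    unfold law
    refine Finset.sum_congr rfl fun ω _ => ?_
    simp only [Prod.mk.injEq, eq_iff_iff, iff_true]
  have h1 : ∀ x ∈ F, (if B x then law p (fun ω => (A ω, C ω)) (x, γ) else 0) =
      ∑ ω, if A ω = x then (if B (A ω) ∧ C ω = γ then p ω else 0) else 0 := by
    intro x _
    by_cases hB : B x
    · rw [if_pos hB]
      unfold law
      refine Finset.sum_congr rfl fun ω _ => ?_
      simp only [Prod.mk.injEq]
      by_cases h2 : A ω = x
      · subst h2
        by_cases h3 : C ω = γ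
        · rw [if_pos ⟨rfl, h3⟩, if_pos rfl, if_pos ⟨hB, h3⟩]
        · rw [if_neg fun e => h3 e.2, if_pos rfl, if_neg fun e => h3 e.2]
      · rw [if_neg h2, if_neg fun e => h2 e.1]
    · rw [if_neg hB]
      refine (Finset.sum_eq_zero fun ω _ => ?_).symm
      by_cases h2 : A ω = x
      · rw [if_pos h2, if_neg fun e => hB (h2 ▸ e.1)]
      · rw [if_neg h2]
  rw [Finset.sum_congr rfl h1, Finset.sum_comm, e0]
  refine Finset.sum_le_sum fun ω _ => ?_
  have h5 : 0 ≤ (if B (A ω) ∧ C ω = γ then p ω else 0) := by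
    split_ifs
    exacts [hp ω, le_rfl]
  by_cases h6 : A ω ∈ F
  · rw [Finset.sum_ite_eq F (A ω), if_pos h6]
  · rw [Finset.sum_ite_eq F (A ω), if_neg h6]
    exact h5

/-- **The dependence of a sample on the choice of a test which it passes.** -/
theorem gibbs_set {p : Ω → ℝ} (hp : IsLaw p) (A : Ω → S) (C : Ω → Γ) (F : Ω → Φ)
    (B : Φ → S → Prop) (hB : ∀ ω, 0 < p ω → B (F ω) (A ω)) :
    Ex p (fun ω => -Real.log (ms p A C B (F ω) (C ω))) ≤
      CH p A C - CH p A (fun ω => (F ω, C ω)) := by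
  classical
  have hp0 := hp.nonneg
  have hpos : ∀ ω, 0 < p ω → 0 < law p (fun ω' => (B (F ω) (A ω'), C ω')) (True, C ω) := by
    intro ω hω
    refine lt_of_lt_of_le hω ?_
    have h := le_law hp0 (fun ω' => (B (F ω) (A ω'), C ω')) ω
    rwa [eq_true (hB ω hω)] at h
  have hms : ∀ ω, 0 < p ω → 0 < ms p A C B (F ω) (C ω) := fun ω hω =>
    div_pos (hpos ω hω) (law_pos hp0 C hω)
  set q : Φ × Γ → S → ℝ := fun w x =>
    if B w.1 x then law p (fun ω => (A ω, C ω)) (x, w.2) /
      law p (fun ω => (B w.1 (A ω), C ω)) (True, w.2) else 0 with hq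
  have hqv : ∀ ω, 0 < p ω → q (F ω, C ω) (A ω) = law p (fun ω => (A ω, C ω)) (A ω, C ω) /
      law p (fun ω' => (B (F ω) (A ω'), C ω')) (True, C ω) := fun ω hω => by
    rw [hq]
    simp only
    rw [if_pos (hB ω hω)]
  have key := CH_le_cross hp0 hp.sum_one A (fun ω => (F ω, C ω)) q
    (fun ω hω => by
      rw [hqv ω hω]
      exact div_pos (law_pos hp0 (fun ω => (A ω, C ω)) hω) (hpos ω hω))
    (fun w x => by
      rw [hq]
      simp only
      split_ifs
      · exact div_nonneg (law_nonneg hp0 _ _) (law_nonneg hp0 _ _)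
      · exact le_rfl)
    (fun ω hω F' => by
      have h1 := law_tests hp0 A C (B (F ω)) (C ω) F'
      have h2 := hpos ω hω
      rw [hq]
      simp only
      have h3 : ∀ x ∈ F', (if B (F ω) x then law p (fun ω => (A ω, C ω)) (x, C ω) /
          law p (fun ω' => (B (F ω) (A ω'), C ω')) (True, C ω) else 0) =
          (if B (F ω) x then law p (fun ω => (A ω, C ω)) (x, C ω) else 0) /
          law p (fun ω' => (B (F ω) (A ω'), C ω')) (True, C ω) := by
        intro x _
        split_ifs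
        · rfl
        · rw [zero_div]
      rw [Finset.sum_congr rfl h3, ← Finset.sum_div]
      exact div_le_one_of_le₀ h1 h2.le)
  have e1 : Ex p (fun ω => -Real.log (q (F ω, C ω) (A ω))) =
      CH p A C - Ex p (fun ω => -Real.log (ms p A C B (F ω) (C ω))) := by
    rw [CH_eq_neg_sum hp0]
    unfold Ex
    rw [← Finset.sum_sub_distrib]
    refine Finset.sum_congr rfl fun ω _ => ?_
    rcases (hp0 ω).eq_or_lt with h0 | h0
    · rw [← h0]
      ring
    · have a1 := law_pos hp0 (fun ω => (A ω, C ω)) h0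
      have a2 := law_pos hp0 C h0
      have a3 := hpos ω h0
      simp only
      rw [hqv ω h0, Real.log_div a1.ne' a3.ne', Real.log_div a1.ne' a2.ne']
      unfold ms
      rw [Real.log_div a3.ne' a2.ne']
      ring
  linarith [key, e1]

/-! ### One of the copies depends little on the choice -/

theorem pick_copy {q : Ω' → ℝ} (hq : IsLaw q) {K : ℕ} (hK : 0 < K) (α : Fin K → Ω' → S)
    (C : Ω' → Γ) (F : Ω' → Φ) {κ L : ℝ}
    (htc : ∑ k, CH q (α k) C ≤ CH q (fun w k => α k w) C + K * κ) (hF : CH q F C ≤ L) :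
    ∃ k, CH q (α k) C - CH q (α k) (fun w => (F w, C w)) ≤ κ + L / K := by
  classical
  have hq0 := hq.nonneg
  have hK0 : (0 : ℝ) < K := by exact_mod_cast hK
  by_contra hcon
  push Not at hcon
  have h1 : ∑ k : Fin K, (κ + L / K) < ∑ k, (CH q (α k) C - CH q (α k) (fun w => (F w, C w))) := by
    refine Finset.sum_lt_sum_of_nonempty ?_ fun k _ => hcon k
    exact ⟨⟨0, hK⟩, Finset.mem_univ _⟩
  rw [Finset.sum_const, Finset.card_univ, Fintype.card_fin, nsmul_eq_mul, mul_add,
    mul_div_cancel₀ _ hK0.ne', Finset.sum_sub_distrib] at h1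
  have h2 : CH q (fun w k => α k w) (fun w => (F w, C w)) ≤
      ∑ k, CH q (α k) (fun w => (F w, C w)) := Q22.CH_pi hq0 _ K fun w k => α k w
  have h3 : CH q (fun w k => α k w) C ≤
      CH q F C + CH q (fun w k => α k w) (fun w => (F w, C w)) :=
    CH_le_add hq0 (fun w (k : Fin K) => α k w) F C
  linarith

/-! ### The best test -/

/-- The best test for the context `γ`. -/
noncomputable def bst [Finite Φ] [Nonempty Φ] (p : Ω → ℝ) (A : Ω → S) (C : Ω → Γ)
    (B : Φ → S → Prop) (γ : Γ) : Φ :=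
  Classical.choose (Finite.exists_max fun f => ms p A C B f γ)

theorem le_bst [Finite Φ] [Nonempty Φ] (p : Ω → ℝ) (A : Ω → S) (C : Ω → Γ)
    (B : Φ → S → Prop) (γ : Γ) (f : Φ) : ms p A C B f γ ≤ ms p A C B (bst p A C B γ) γ :=
  Classical.choose_spec (Finite.exists_max fun f => ms p A C B f γ) f

open Classical in
theorem Pe_Ex (p : Ω → ℝ) (E : Ω → Prop) : Pe p E = Ex p (fun ω => if E ω then 1 else 0) := by
  rw [Pe_eq]
  unfold Ex
  refine Finset.sum_congr rfl fun ω _ => ?_
  by_cases h : E ω <;> simp [h]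

theorem Pe_test {p : Ω → ℝ} (hp : ∀ ω, 0 ≤ p ω) (A : Ω → S) (C : Ω → Γ) (B : Φ → S → Prop)
    (φ : Γ → Φ) :
    Pe p (fun ω => B (φ (C ω)) (A ω)) = Ex p (fun ω => ms p A C B (φ (C ω)) (C ω)) := by
  classical
  have e1 : Ex p (fun ω => ms p A C B (φ (C ω)) (C ω)) =
      ∑ γ ∈ univ.image C, law p C γ * ms p A C B (φ γ) γ :=
    sum_mul_eq_sum_image p C (fun γ => ms p A C B (φ γ) γ)
  have e2 : ∀ γ ∈ univ.image C, law p C γ * ms p A C B (φ γ) γ =
      ∑ ω, if C ω = γ then (if B (φ (C ω)) (A ω) then p ω else 0) else 0 := by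
    intro γ _
    have e3 : law p (fun ω => (B (φ γ) (A ω), C ω)) (True, γ) =
        ∑ ω, if C ω = γ then (if B (φ (C ω)) (A ω) then p ω else 0) else 0 := by
      unfold law
      refine Finset.sum_congr rfl fun ω _ => ?_
      simp only [Prod.mk.injEq, eq_iff_iff, iff_true]
      by_cases h : C ω = γ
      · subst h
        by_cases h2 : B (φ (C ω)) (A ω)
        · rw [if_pos ⟨h2, rfl⟩, if_pos rfl, if_pos h2]
        · rw [if_neg fun e => h2 e.1, if_pos rfl, if_neg h2]
      · rw [if_neg fun e => h e.2, if_neg h]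
    unfold ms
    rw [← e3]
    by_cases h0 : law p C γ = 0
    · have := law_and_le hp A C (B (φ γ)) γ
      rw [h0] at this
      have h4 := le_antisymm this (law_nonneg hp _ _)
      rw [h4, h0, zero_div, mul_zero]
    · rw [mul_div_cancel₀ _ h0]
  rw [e1, Finset.sum_congr rfl e2, Finset.sum_comm, Pe_eq]
  refine Finset.sum_congr rfl fun ω _ => ?_
  rw [Finset.sum_ite_eq (univ.image C) (C ω),
    if_pos (Finset.mem_image_of_mem C (Finset.mem_univ ω))]

/-! ### The theorem for finite families of tests -/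

/-- The samples `A (pr k w)` have the same law with the context, for all `k`. -/
structure Cps (p : Ω → ℝ) (q : Ω' → ℝ) (C : Ω → Γ) {K : ℕ} (pr : Fin K → Ω' → Ω)
    (C' : Ω' → Γ) : Prop where
  law : IsLaw q
  marg : ∀ k, Marg q p (pr k)
  ctx : ∀ k w, 0 < q w → C (pr k w) = C' w

/-- The tests and the trivial test. -/
def tst (B : Φ → S → Prop) (o : Option Φ) (s : S) : Prop := ∀ f, o = some f → B f s

theorem ms_marg {p : Ω → ℝ} {q : Ω' → ℝ} {pr : Ω' → Ω} (h : Marg q p pr) (A : Ω → S) (C : Ω → Γ)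
    (B : Φ → S → Prop) (f : Φ) (γ : Γ) :
    ms q (fun w => A (pr w)) (fun w => C (pr w)) B f γ = ms p A C B f γ := by
  unfold ms
  rw [h.law (fun ω => (B f (A ω), C ω)) (True, γ), h.law C γ]

theorem ms_tst (p : Ω → ℝ) (A : Ω → S) (C : Ω → Γ) (B : Φ → S → Prop) (f : Φ) (γ : Γ) :
    ms p A C (tst B) (some f) γ = ms p A C B f γ := by
  unfold ms
  congr 2
  funext ω
  have : tst B (some f) (A ω) = B f (A ω) := by
    unfold tst
    refine propext ⟨fun h => h f rfl, fun h g hg => ?_⟩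
    rwa [Option.some.inj hg] at h
  rw [this]

/-- **SPAN, for a finite family of tests.** -/
theorem span_test [Fintype Φ] [Nonempty Φ] {p : Ω → ℝ} (hp : IsLaw p) {q : Ω' → ℝ} {A : Ω → S}
    {C : Ω → Γ} {K : ℕ} (hK : 0 < K) {pr : Fin K → Ω' → Ω} {C' : Ω' → Γ} (hq : Cps p q C pr C')
    {κ : ℝ} (hκ : 0 ≤ κ)
    (htc : ∑ k, CH q (fun w => A (pr k w)) C' ≤ CH q (fun w k => A (pr k w)) C' + K * κ)
    (B : Φ → S → Prop) (E : Ω' → Prop)
    (hE : ∀ w, 0 < q w → E w → ∃ f, ∀ k, B f (A (pr k w))) {η : ℝ} (hη : 0 < η)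
    (hPE : η ≤ Pe q E) :
    ∃ φ : Γ → Φ, η / 2 * Real.exp (-(2 / η * (κ + Real.log ((Fintype.card Φ : ℝ) + 1) / K))) ≤
      Pe p (fun ω => B (φ (C ω)) (A ω)) := by
  classical
  have hp0 := hp.nonneg
  have hq0 := hq.law.nonneg
  have hK0 : (0 : ℝ) < K := by exact_mod_cast hK
  have hcard : (1 : ℝ) ≤ Fintype.card Φ := by exact_mod_cast Fintype.card_pos
  set L : ℝ := Real.log ((Fintype.card Φ : ℝ) + 1) with hL
  have hL0 : 0 < L := Real.log_pos (by linarith)
  set δ : ℝ := κ + L / K with hδ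
  have hδ0 : 0 < δ := by
    have : 0 < L / K := div_pos hL0 hK0
    linarith
  set F : Ω' → Option Φ := fun w =>
    if h : E w ∧ ∃ f, ∀ k, B f (A (pr k w)) then some (Classical.choose h.2) else none with hF
  have hFE : ∀ w, 0 < q w → E w → ∃ f, F w = some f ∧ ∀ k, B f (A (pr k w)) := by
    intro w hw he
    have h : E w ∧ ∃ f, ∀ k, B f (A (pr k w)) := ⟨he, hE w hw he⟩
    refine ⟨Classical.choose h.2, ?_, Classical.choose_spec h.2⟩
    rw [hF]
    simp only
    rw [dif_pos h]
  have hFB : ∀ k w, tst B (F w) (A (pr k w)) := by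
    intro k w f hf
    rw [hF] at hf
    simp only at hf
    split_ifs at hf with h
    rw [← Option.some.inj hf]
    exact Classical.choose_spec h.2 k
  have hFL : CH q F C' ≤ L := by
    have h1 := CH_le_card hq0 hq.law.sum_one F C' (fun _ => Finset.univ)
      (fun w _ => Finset.mem_univ _)
    refine h1.trans (le_of_eq ?_)
    rw [Ex_const hq.law.sum_one, Finset.card_univ, Fintype.card_option, hL]
    push_cast
    rfl
  obtain ⟨k, hk⟩ := pick_copy hq.law hK (fun k w => A (pr k w)) C' F htc hFL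
  have hd : Det q C' (fun w => C (pr k w)) := by
    intro w w' hw hw' e
    simp only
    rw [hq.ctx k w hw, hq.ctx k w' hw', e]
  have hd' : Det q (fun w => C (pr k w)) C' := by
    intro w w' hw hw' e
    rw [← hq.ctx k w hw, ← hq.ctx k w' hw']
    exact e
  have e1 : CH q (fun w => A (pr k w)) (fun w => C (pr k w)) = CH q (fun w => A (pr k w)) C' :=
    CH_congr hq0 (fun _ _ _ _ e => (Prod.ext_iff.mp e).1) (fun _ _ _ _ e => (Prod.ext_iff.mp e).1)
      hd' hd
  have e2 : CH q (fun w => A (pr k w)) (fun w => (F w, C (pr k w))) =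
      CH q (fun w => A (pr k w)) (fun w => (F w, C' w)) :=
    CH_congr hq0 (fun _ _ _ _ e => (Prod.ext_iff.mp e).1) (fun _ _ _ _ e => (Prod.ext_iff.mp e).1)
      (fun w w' hw hw' e => Prod.ext (Prod.ext_iff.mp e).1 (hd' w w' hw hw' (Prod.ext_iff.mp e).2))
      (fun w w' hw hw' e => Prod.ext (Prod.ext_iff.mp e).1 (hd w w' hw hw' (Prod.ext_iff.mp e).2))
  have g1 := gibbs_set hq.law (fun w => A (pr k w)) (fun w => C (pr k w)) F (tst B)
    (fun w _ => hFB k w)
  rw [e1, e2] at g1
  have g2 := g1.trans hk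
  set m : Γ → ℝ := fun γ => ms p A C B (bst p A C B γ) γ with hm
  have hm1 : ∀ γ, m γ ≤ 1 := fun γ => ms_le_one hp0 A C B _ γ
  have hm0 : ∀ γ, 0 ≤ m γ := fun γ => ms_nonneg hp0 A C B _ γ
  -- lower bound of the integrand
  have hlow : ∀ w, 0 < q w → (if E w then -Real.log (m (C (pr k w))) else 0) ≤
      -Real.log (ms q (fun w => A (pr k w)) (fun w => C (pr k w)) (tst B) (F w) (C (pr k w))) := by
    intro w hw
    by_cases he : E w
    · rw [if_pos he]
      obtain ⟨f, hf, hfB⟩ := hFE w hw he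
      rw [hf, ms_tst, ms_marg (hq.marg k)]
      have h1 := le_bst p A C B (C (pr k w)) f
      have h2 : 0 < ms p A C B f (C (pr k w)) := by
        rw [← ms_marg (hq.marg k)]
        refine div_pos ?_ (law_pos hq0 (fun w => C (pr k w)) hw)
        refine lt_of_lt_of_le hw ?_
        have h := le_law hq0 (fun w' => (B f (A (pr k w')), C (pr k w'))) w
        rwa [eq_true (hfB k)] at h
      have := Real.log_le_log h2 h1
      linarith
    · rw [if_neg he]
      have h1 := ms_le_one hq0 (fun w => A (pr k w)) (fun w => C (pr k w)) (tst B) (F w)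
        (C (pr k w))
      have h0 := ms_nonneg hq0 (fun w => A (pr k w)) (fun w => C (pr k w)) (tst B) (F w)
        (C (pr k w))
      have := Real.log_nonpos h0 h1
      linarith
  have g3 : Ex q (fun w => if E w then -Real.log (m (C (pr k w))) else 0) ≤ δ :=
    (Ex_mono hq0 hlow).trans g2
  -- Markov
  set a : ℝ := 2 / η * δ with ha
  have ha0 : 0 < a := by positivity
  have hmpos : ∀ w, 0 < q w → E w → 0 < m (C (pr k w)) := by
    intro w hw he
    obtain ⟨f, hf, hfB⟩ := hFE w hw he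
    refine lt_of_lt_of_le ?_ (le_bst p A C B (C (pr k w)) f)
    rw [← ms_marg (hq.marg k)]
    refine div_pos ?_ (law_pos hq0 (fun w => C (pr k w)) hw)
    refine lt_of_lt_of_le hw ?_
    have h := le_law hq0 (fun w' => (B f (A (pr k w')), C (pr k w'))) w
    rwa [eq_true (hfB k)] at h
  have g4 : a * Pe q E ≤ δ + a * Pe q (fun w => Real.exp (-a) ≤ m (C (pr k w))) := by
    rw [Pe_Ex, Pe_Ex, ← Ex_smul, ← Ex_smul]
    refine le_trans ?_ (add_le_add_left g3 _)
    rw [← Ex_add]
    refine Ex_mono hq0 fun w hw => ?_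
    by_cases he : E w
    · rw [if_pos he, if_pos he]
      by_cases hg : Real.exp (-a) ≤ m (C (pr k w))
      · rw [if_pos hg]
        have := Real.log_nonpos (hm0 (C (pr k w))) (hm1 (C (pr k w)))
        linarith
      · rw [if_neg hg]
        push Not at hg
        have h1 := hmpos w hw he
        have h2 := Real.log_lt_log h1 hg
        rw [Real.log_exp] at h2
        linarith
    · rw [if_neg he, if_neg he]
      split_ifs
      · linarith
      · linarith
  have g5 : η / 2 ≤ Pe q (fun w => Real.exp (-a) ≤ m (C (pr k w))) := by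
    have h1 : a * (η / 2) = δ := by
      rw [ha]
      field_simp
    have h2 : a * η ≤ a * Pe q E := mul_le_mul_of_nonneg_left hPE ha0.le
    have h3 : a * (η / 2) ≤ a * Pe q (fun w => Real.exp (-a) ≤ m (C (pr k w))) := by
      have : a * η = 2 * (a * (η / 2)) := by ring
      linarith
    exact le_of_mul_le_mul_left h3 ha0
  refine ⟨bst p A C B, ?_⟩
  rw [Pe_test hp0]
  have g6 : Pe q (fun w => Real.exp (-a) ≤ m (C (pr k w))) =
      Pe p (fun ω => Real.exp (-a) ≤ m (C ω)) :=
    (hq.marg k).law (fun ω => Real.exp (-a) ≤ m (C ω)) True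
  rw [g6] at g5
  have g7 : Real.exp (-a) * Pe p (fun ω => Real.exp (-a) ≤ m (C ω)) ≤ Ex p (fun ω => m (C ω)) := by
    rw [Pe_Ex, ← Ex_smul]
    refine Ex_mono hp0 fun ω _ => ?_
    split_ifs with h
    · rw [mul_one]
      exact h
    · rw [mul_zero]
      exact hm0 _
  refine le_trans ?_ g7
  rw [mul_comm]
  exact mul_le_mul_of_nonneg_left g5 (Real.exp_pos _).le

/-! ### Conditional copies -/

section multi

variable {p : Ω → ℝ}

theorem marg_copy (hp : IsLaw p) {β : Type} {K : ℕ} (b : Fin K → Ω → β) (k : Fin K) :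
    Marg (multi p b) p (fun w => w.2 k) := by
  have h1 := (mul_thm Ω β K p b hp).2.2 k
  have h2 : Marg (dbl p (b k)) p (fun w => w.2) := marg_snd hp.nonneg (fun _ => rfl)
  exact h1.comp h2

theorem CH_dbl_snd (hp : IsLaw p) {β : Type} (b : Ω → β) (A : Ω → S) :
    CH (dbl p b) (fun w => A w.2) (fun w => w.1) = CH p A b := by
  have h0 : ∀ w, 0 ≤ dbl p b w := fun w => glue_nonneg hp.nonneg hp.nonneg w
  have h1 : CH (dbl p b) (fun w => A w.2) (fun w => (b w.2, w.1)) = CH p A b :=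
    CH_glue_snd (Z₁ := b) (Z₂ := b) hp.nonneg hp.nonneg (fun _ => rfl) A (fun ω : Ω => ω)
      (fun _ _ _ _ e => e)
  rw [← h1]
  refine CH_congr h0 (fun _ _ _ _ e => (Prod.ext_iff.mp e).1) (fun _ _ _ _ e =>
    (Prod.ext_iff.mp e).1) ?_ (fun _ _ _ _ e => (Prod.ext_iff.mp e).2)
  intro w w' hw hw' e
  have a1 := ((glue_pos_iff hp.nonneg hp.nonneg w).1 hw).2.2
  have a2 := ((glue_pos_iff hp.nonneg hp.nonneg w').1 hw').2.2
  refine Prod.ext ?_ e
  show b w.2 = b w'.2
  rw [← a1, ← a2, show w.1 = w'.1 from e]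

theorem cps_multi (hp : IsLaw p) (C : Ω → Γ) (W : Ω → T) (K : ℕ) :
    Cps p (multi p (fun _ : Fin K => fun ω => (W ω, C ω))) C (fun k w => w.2 k)
      (fun w => C w.1) where
  law := (mul_thm Ω (T × Γ) K p _ hp).1
  marg := fun k => marg_copy hp _ k
  ctx := fun k w hw => by
    have h1 := (MUI.multi_pos hp.nonneg hw).2 k
    have h2 := ((cond_pos_iff hp.nonneg _ _ _).1 h1).2
    exact (Prod.ext_iff.mp h2).2

theorem tc_multi (hp : IsLaw p) (A : Ω → S) (C : Ω → Γ) (W : Ω → T) (K : ℕ) :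
    ∑ k : Fin K, CH (multi p (fun _ : Fin K => fun ω => (W ω, C ω))) (fun w => A (w.2 k))
        (fun w => C w.1) ≤
      CH (multi p (fun _ : Fin K => fun ω => (W ω, C ω))) (fun w k => A (w.2 k))
        (fun w => C w.1) + K * (CH p A C - CH p A (fun ω => (W ω, C ω))) := by
  have hc := cps_multi hp C W K
  have hq0 := hc.law.nonneg
  have h1 : ∀ k : Fin K, CH (multi p (fun _ : Fin K => fun ω => (W ω, C ω))) (fun w => A (w.2 k))
      (fun w => C w.1) = CH p A C := by
    intro k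
    rw [← (hc.marg k).CH A C]
    refine CH_congr hq0 (fun _ _ _ _ e => (Prod.ext_iff.mp e).1) (fun _ _ _ _ e =>
      (Prod.ext_iff.mp e).1) ?_ ?_
    · intro w w' hw hw' e
      show C (w.2 k) = C (w'.2 k)
      rw [hc.ctx k w hw, hc.ctx k w' hw']
      exact e
    · intro w w' hw hw' e
      have e' : C (w.2 k) = C (w'.2 k) := e
      rw [hc.ctx k w hw, hc.ctx k w' hw'] at e'
      exact e'
  have h2 := mui_thm mul_thm Ω (T × Γ) S K p (fun _ ω => (W ω, C ω)) hp (fun _ w => A w.2)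
  have h3 : CH (multi p (fun _ : Fin K => fun ω => (W ω, C ω))) (fun w k => A (w.2 k))
      (fun w => w.1) ≤
      CH (multi p (fun _ : Fin K => fun ω => (W ω, C ω))) (fun w k => A (w.2 k))
      (fun w => C w.1) := CH_mono_cond hq0 fun w w' _ _ e => by
    show C w.1 = C w'.1
    rw [show w.1 = w'.1 from e]
  rw [Finset.sum_congr rfl fun k _ => h1 k]
  rw [Finset.sum_congr rfl fun k _ => CH_dbl_snd hp (fun ω => (W ω, C ω)) A] at h2
  rw [Finset.sum_const, Finset.card_univ, Fintype.card_fin, nsmul_eq_mul] at h2 ⊢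
  linarith

/-- **SPAN, tests, for conditional copies given `W` and the context.** -/
theorem span_multi [Fintype Φ] [Nonempty Φ] (hp : IsLaw p) (A : Ω → S) (C : Ω → Γ) (W : Ω → T)
    {K : ℕ} (hK : 0 < K) {κ : ℝ} (hκ : CH p A C - CH p A (fun ω => (W ω, C ω)) ≤ κ)
    (B : Φ → S → Prop) (E : Ω × (Fin K → Ω) → Prop)
    (hE : ∀ w, 0 < multi p (fun _ : Fin K => fun ω => (W ω, C ω)) w → E w →
      ∃ f, ∀ k, B f (A (w.2 k))) {η : ℝ} (hη : 0 < η)
    (hPE : η ≤ Pe (multi p (fun _ : Fin K => fun ω => (W ω, C ω))) E) :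
    ∃ φ : Γ → Φ, η / 2 * Real.exp (-(2 / η * (κ + Real.log ((Fintype.card Φ : ℝ) + 1) / K))) ≤
      Pe p (fun ω => B (φ (C ω)) (A ω)) := by
  have hκ0 : 0 ≤ κ := by
    have : CH p A (fun ω => (W ω, C ω)) ≤ CH p A C :=
      CH_mono_cond hp.nonneg fun _ _ _ _ e => (Prod.ext_iff.mp e).2
    linarith
  have h1 := tc_multi hp A C W K
  have hK0 : (0 : ℝ) ≤ K := Nat.cast_nonneg K
  have h2 : (K : ℝ) * (CH p A C - CH p A (fun ω => (W ω, C ω))) ≤ K * κ :=
    mul_le_mul_of_nonneg_left hκ hK0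
  exact span_test hp hK (cps_multi hp C W K) hκ0 (by linarith) B E hE hη hPE

end multi

/-! ### Unit covectors -/

section cov

/-- The value of a covector. -/
noncomputable def dt {c : ℕ} (φ v : Fin c → ℝ) : ℝ := ∑ i, φ i * v i

theorem dt_sub {c : ℕ} (φ ψ v : Fin c → ℝ) : dt φ v - dt ψ v = ∑ i, (φ i - ψ i) * v i := by
  unfold dt
  rw [← Finset.sum_sub_distrib]
  exact Finset.sum_congr rfl fun i _ => by ring

/-- The net of covectors: integer vectors of size at most `R`, divided by `R`. -/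
noncomputable def nt {c : ℕ} (R : ℕ) (z : Fin c → Fin (2 * R + 1)) : Fin c → ℝ :=
  fun i => (((z i : ℕ) : ℝ) - R) / R

theorem nt_near {c R : ℕ} (hR : 0 < R) {φ : Fin c → ℝ} (h : ∀ i, |φ i| ≤ 1) :
    ∃ z : Fin c → Fin (2 * R + 1), (∀ i, |φ i - nt R z i| ≤ 1 / R) ∧
      ∀ i, |φ i| = 1 → nt R z i = φ i := by
  have hR0 : (0 : ℝ) < R := by exact_mod_cast hR
  have key : ∀ i, ∃ k : Fin (2 * R + 1), |φ i - (((k : ℕ) : ℝ) - R) / R| ≤ 1 / R ∧
      (|φ i| = 1 → (((k : ℕ) : ℝ) - R) / R = φ i) := by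
    intro i
    have hi := abs_le.mp (h i)
    have h0 : 0 ≤ (φ i + 1) * R := mul_nonneg (by linarith [hi.1]) hR0.le
    set k : ℕ := ⌊(φ i + 1) * R⌋₊ with hk
    have hk1 : (k : ℝ) ≤ (φ i + 1) * R := Nat.floor_le h0
    have hk2 : (φ i + 1) * R < k + 1 := Nat.lt_floor_add_one _
    have hk3 : k < 2 * R + 1 := by
      have : (k : ℝ) ≤ 2 * R := by
        refine hk1.trans ?_
        nlinarith [hi.2]
      have h2 : k ≤ 2 * R := by exact_mod_cast this
      omega
    refine ⟨⟨k, hk3⟩, ?_, ?_⟩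
    · have e : φ i - ((k : ℝ) - R) / R = ((φ i + 1) * R - k) / R := by
        field_simp
        ring
      show |φ i - ((k : ℝ) - R) / R| ≤ 1 / R
      rw [e, abs_div, abs_of_pos hR0]
      refine div_le_div_of_nonneg_right ?_ hR0.le
      rw [abs_le]
      constructor <;> linarith
    · intro h1
      show ((k : ℝ) - R) / R = φ i
      rcases eq_or_eq_neg_of_abs_eq h1 with h2 | h2
      · have : k = 2 * R := by
          rw [hk, h2]
          have : ((1 : ℝ) + 1) * R = ((2 * R : ℕ) : ℝ) := by push_cast; ring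
          rw [this, Nat.floor_natCast]
        rw [this, h2]
        push_cast
        field_simp
        ring
      · have : k = 0 := by
          rw [hk, h2]
          simp
        rw [this, h2]
        push_cast
        field_simp
        ring
  choose z hz using key
  exact ⟨z, fun i => (hz i).1, fun i => (hz i).2⟩

/-- A unit covector (in the sup norm). -/
def UC {c : ℕ} (φ : Fin c → ℝ) : Prop := (∀ i, |φ i| ≤ 1) ∧ ∃ i, |φ i| = 1

/-- The vectors do not span robustly. -/
def Fl {c : ℕ} (ρ : ℝ) {ι : Type} (v : ι → Fin c → ℝ) : Prop :=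
  ∃ φ : Fin c → ℝ, UC φ ∧ ∀ j, |dt φ (v j)| ≤ ρ

/-- **SPAN, covectors.** The vectors `v (A ω) j` are functions of the sample `A`. If the vectors of
`K` conditional copies given `W` and `C` do not span up to `ρ` with probability at least `η`, then
there is a unit covector `φ (C ω)`, a function of the context, with `|φ (v (A ω) j)| ≤ 2 ρ` for all
`j` with large probability. -/
theorem span_cov {p : Ω → ℝ} (hp : IsLaw p) {c R : ℕ} (hR : 0 < R) {ι : Type}
    (A : Ω → S) (C : Ω → Γ) (W : Ω → T) (v : S → ι → Fin c → ℝ)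
    (hv : ∀ ω, 0 < p ω → ∀ j i, |v (A ω) j i| ≤ 1)
    {K : ℕ} (hK : 0 < K) {κ : ℝ} (hκ : CH p A C - CH p A (fun ω => (W ω, C ω)) ≤ κ)
    {ρ : ℝ} (hρ : (c : ℝ) / R ≤ ρ) {η : ℝ} (hη : 0 < η)
    (hPE : η ≤ Pe (multi p (fun _ : Fin K => fun ω => (W ω, C ω)))
      (fun w => Fl ρ (fun x : Fin K × ι => v (A (w.2 x.1)) x.2))) :
    ∃ φ : Γ → Fin c → ℝ, (∀ γ, UC (φ γ)) ∧
      η / 2 * Real.exp (-(2 / η * (κ + c * Real.log (2 * R + 2) / K))) ≤
      Pe p (fun ω => ∀ j, |dt (φ (C ω)) (v (A ω) j)| ≤ 2 * ρ) := by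
  classical
  have hR0 : (0 : ℝ) < R := by exact_mod_cast hR
  -- the index is not empty
  have hc : 0 < c := by
    by_contra hc
    have hc0 : c = 0 := by omega
    subst hc0
    have : Pe (multi p (fun _ : Fin K => fun ω => (W ω, C ω)))
        (fun w => Fl ρ (fun x : Fin K × ι => v (A (w.2 x.1)) x.2)) = 0 := by
      rw [Pe_eq]
      refine Finset.sum_eq_zero fun w _ => if_neg ?_
      rintro ⟨φ, ⟨-, i, -⟩, -⟩
      exact Fin.elim0 i
    linarith
  set Φ' : Type := {z : Fin c → Fin (2 * R + 1) // UC (nt R z)} with hΦ'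
  have hne : Nonempty Φ' := by
    obtain ⟨z, -, hz⟩ := nt_near (c := c) hR (φ := fun _ => 1) (fun i => by simp)
    refine ⟨⟨z, fun i => ?_, ⟨⟨0, hc⟩, ?_⟩⟩⟩
    · rw [hz i (by simp)]
      simp
    · rw [hz _ (by simp)]
      simp
  have hft : Fintype Φ' := Fintype.ofFinite _
  set B : Φ' → S → Prop := fun z s => ∀ j, |dt (nt R z.1) (v s j)| ≤ 2 * ρ with hB
  obtain ⟨φ, hφ⟩ := span_multi (Φ := Φ') hp A C W hK hκ B
    (fun w => Fl ρ (fun x : Fin K × ι => v (A (w.2 x.1)) x.2)) (by
      rintro w hw ⟨φ, hu, hj⟩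
      obtain ⟨z, hz1, hz2⟩ := nt_near hR hu.1
      have hzu : UC (nt R z) := by
        obtain ⟨i, hi⟩ := hu.2
        refine ⟨fun i => ?_, ⟨i, by rw [hz2 i hi]; exact hi⟩⟩
        unfold nt
        rw [abs_div, abs_of_pos hR0, div_le_one hR0, abs_le]
        have h1 : ((z i : ℕ) : ℝ) ≤ 2 * R := by
          have := (z i).isLt
          have h2 : ((z i : ℕ)) ≤ 2 * R := by omega
          exact_mod_cast h2
        have h3 : (0 : ℝ) ≤ ((z i : ℕ) : ℝ) := Nat.cast_nonneg _
        constructor <;> linarith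
      refine ⟨⟨z, hzu⟩, fun k j => ?_⟩
      have hwk : 0 < p (w.2 k) :=
        ((cond_pos_iff hp.nonneg _ _ _).1 ((MUI.multi_pos hp.nonneg hw).2 k)).1
      have h1 := hj (k, j)
      have h2 : |dt φ (v (A (w.2 k)) j) - dt (nt R z) (v (A (w.2 k)) j)| ≤ ρ := by
        rw [dt_sub]
        refine (Finset.abs_sum_le_sum_abs _ _).trans ?_
        have h3 : ∀ i ∈ (Finset.univ : Finset (Fin c)),
            |(φ i - nt R z i) * v (A (w.2 k)) j i| ≤ 1 / R := by
          intro i _
          rw [abs_mul]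
          calc |φ i - nt R z i| * |v (A (w.2 k)) j i| ≤ (1 / R) * 1 :=
                mul_le_mul (hz1 i) (hv _ hwk j i) (abs_nonneg _) (by positivity)
            _ = 1 / R := mul_one _
        refine (Finset.sum_le_sum h3).trans ?_
        rw [Finset.sum_const, Finset.card_univ, Fintype.card_fin, nsmul_eq_mul]
        calc (c : ℝ) * (1 / R) = c / R := by ring
          _ ≤ ρ := hρ
      have h4 : |dt (nt R z) (v (A (w.2 k)) j)| ≤
          |dt φ (v (A (w.2 k)) j)| + |dt φ (v (A (w.2 k)) j) - dt (nt R z) (v (A (w.2 k)) j)| := by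
        have := abs_sub_abs_le_abs_sub (dt (nt R z) (v (A (w.2 k)) j)) (dt φ (v (A (w.2 k)) j))
        rw [abs_sub_comm] at this
        linarith
      show |dt (nt R z) (v (A (w.2 k)) j)| ≤ 2 * ρ
      linarith) hη hPE
  refine ⟨fun γ => nt R (φ γ).1, fun γ => (φ γ).2, le_trans ?_ hφ⟩
  refine mul_le_mul_of_nonneg_left (Real.exp_le_exp.2 ?_) (by linarith)
  have hcard : (Fintype.card Φ' : ℝ) ≤ (2 * R + 1) ^ c := by
    have h1 : Fintype.card Φ' ≤ Fintype.card (Fin c → Fin (2 * R + 1)) :=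
      Fintype.card_subtype_le _
    rw [Fintype.card_fun, Fintype.card_fin, Fintype.card_fin] at h1
    calc (Fintype.card Φ' : ℝ) ≤ (((2 * R + 1) ^ c : ℕ) : ℝ) := by exact_mod_cast h1
      _ = _ := by push_cast; ring
  have hlog : Real.log ((Fintype.card Φ' : ℝ) + 1) ≤ c * Real.log (2 * R + 2) := by
    rw [← Real.log_pow]
    refine Real.log_le_log (by positivity) ?_
    have h1 : ((2 * (R : ℝ) + 1) ^ c + 1) ≤ (2 * R + 1 + 1) ^ c := by
      obtain ⟨n, rfl⟩ : ∃ n, c = n + 1 := ⟨c - 1, by omega⟩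
      have h2 : (2 * (R : ℝ) + 1) ^ n ≤ (2 * R + 1 + 1) ^ n :=
        pow_le_pow_left₀ (by positivity) (by linarith) n
      have h3 : (1 : ℝ) ≤ (2 * R + 1 + 1) ^ n := one_le_pow₀ (by linarith)
      rw [pow_succ, pow_succ]
      nlinarith
    calc (Fintype.card Φ' : ℝ) + 1 ≤ (2 * R + 1) ^ c + 1 := by linarith
      _ ≤ (2 * R + 1 + 1) ^ c := h1
      _ = (2 * R + 2) ^ c := by ring
  have hK0 : (0 : ℝ) < K := by exact_mod_cast hK
  have h5 : Real.log ((Fintype.card Φ' : ℝ) + 1) / K ≤ c * Real.log (2 * R + 2) / K :=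
    div_le_div_of_nonneg_right hlog hK0.le
  have h6 : 2 / η * (κ + Real.log ((Fintype.card Φ' : ℝ) + 1) / K) ≤
      2 / η * (κ + c * Real.log (2 * R + 2) / K) :=
    mul_le_mul_of_nonneg_left (by linarith) (by positivity)
  linarith

end cov

end Pool.SPN
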